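import Pool.Agent.helper36.LT.Structs

set_option autoImplicit false
set_option linter.unusedSimpArgs false

/-!
# Groups acting on trees (module M5)

A group acting on an oriented tree with a homomorphism to `ℤ` injective on vertex stabilisers acts
freely on the product of the tree and a line, which is a 2-dimensional CAT(0) complex.
-/

namespace Pool.Agent.helper91.LT

open Pool.Agent.helper34 Pool.Agent.helper36.LT

variable {V : Type}

/-- directed edges -/
def D (par : V → V → Prop) (v w : V × ℤ) : Prop :=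
  (v.1 = w.1 ∧ w.2 = v.2 + 1) ∨ (par v.1 w.1 ∧ (w.2 = v.2 ∨ w.2 = v.2 + 1))

/-- ordered triangles -/
def T0 (par : V → V → Prop) (a b c : V × ℤ) : Prop :=
  par a.1 c.1 ∧ c.2 = a.2 + 1 ∧ ((b.1 = a.1 ∧ b.2 = a.2 + 1) ∨ (b.1 = c.1 ∧ b.2 = a.2))

theorem T0.D12 {par : V → V → Prop} {a b c : V × ℤ} (h : T0 par a b c) : D par a b := by
  obtain ⟨h1, h2, h3 | h3⟩ := h
  · exact Or.inl ⟨h3.1.symm, h3.2⟩
  · exact Or.inr ⟨h3.1 ▸ h1, Or.inl h3.2⟩

theorem T0.D23 {par : V → V → Prop} {a b c : V × ℤ} (h : T0 par a b c) : D par b c := by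
  obtain ⟨h1, h2, h3 | h3⟩ := h
  · exact Or.inr ⟨h3.1 ▸ h1, Or.inl (by rw [h2, h3.2])⟩
  · exact Or.inl ⟨h3.1, by rw [h2, h3.2]⟩

theorem T0.D13 {par : V → V → Prop} {a b c : V × ℤ} (h : T0 par a b c) : D par a c :=
  Or.inr ⟨h.1, Or.inr h.2.1⟩

/-- the product of the tree and the line -/
def pcx (par : V → V → Prop) (hp : ∀ x p, par x p → ¬ par p x) : FJ2.Complex2 (V × ℤ) where
  edge v w := D par v w ∨ D par w v
  tri a b c := T0 par a b c ∨ T0 par a c b ∨ T0 par b a c ∨ T0 par b c a ∨ T0 par c a b ∨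
    T0 par c b a
  edge_symm a b h := h.symm
  edge_irrefl a h := by
    have : ¬ D par a a := by
      rintro (⟨_, h⟩ | ⟨h, _⟩)
      · omega
      · exact hp _ _ h h
    exact h.elim this this
  tri_rot a b c h := by tauto
  tri_swap a b c h := by tauto
  tri_edge a b c h := by
    rcases h with h | h | h | h | h | h
    · exact Or.inl h.D12
    · exact Or.inl h.D13
    · exact Or.inr h.D12
    · exact Or.inr h.D13
    · exact Or.inl h.D23
    · exact Or.inr h.D23

open Classical in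
/-- edge lengths -/
noncomputable def plen (v w : V × ℤ) : ℝ := if v.1 = w.1 ∨ v.2 = w.2 then 1 else √2

theorem plen_symm (v w : V × ℤ) : plen v w = plen w v := by
  classical
  unfold plen
  by_cases h : v.1 = w.1 ∨ v.2 = w.2
  · rw [if_pos h, if_pos (h.imp Eq.symm Eq.symm)]
  · rw [if_neg h, if_neg (fun h' => h (h'.imp Eq.symm Eq.symm))]

theorem plen_v (x : V) (j k : ℤ) : plen (x, j) (x, k) = 1 := by
  classical
  exact if_pos (Or.inl rfl)

theorem plen_h (x y : V) (k : ℤ) : plen (x, k) (y, k) = 1 := by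
  classical
  exact if_pos (Or.inr rfl)

theorem plen_d {x y : V} {j k : ℤ} (h : x ≠ y) (h' : j ≠ k) : plen (x, j) (y, k) = √2 := by
  classical
  exact if_neg (fun h1 => h1.elim h h')

open Classical in
/-- the position on the link of `a` (angle distance to the pole above `a`) -/
noncomputable def hgt (a v : V × ℤ) : ℝ :=
  if v.1 = a.1 then (if v.2 = a.2 + 1 then 0 else Real.pi) else
    Real.pi / 2 - (v.2 - a.2) * (Real.pi / 4)

theorem hgt_up (x : V) (k : ℤ) : hgt (x, k) (x, k + 1) = 0 := by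
  classical
  unfold hgt
  rw [if_pos rfl, if_pos rfl]

theorem hgt_down (x : V) (k : ℤ) : hgt (x, k) (x, k - 1) = Real.pi := by
  classical
  unfold hgt
  rw [if_pos rfl, if_neg]
  change ¬ k - 1 = k + 1
  omega

theorem hgt_o {x y : V} {j k : ℤ} (h : y ≠ x) :
    hgt (x, k) (y, j) = Real.pi / 2 - (j - k) * (Real.pi / 4) := by
  classical
  exact if_neg h

/-- the list of the neighbouring pairs of the link of `(x, k)` -/
theorem link_cases {par : V → V → Prop} {x : V} {k : ℤ} {u v : V × ℤ}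
    (h : T0 par (x, k) u v ∨ T0 par u (x, k) v ∨ T0 par u v (x, k)) :
    (∃ p, par x p ∧ ((u = (x, k + 1) ∧ v = (p, k + 1)) ∨ (u = (p, k) ∧ v = (p, k + 1)) ∨
      (u = (x, k - 1) ∧ v = (p, k)))) ∨
    (∃ c, par c x ∧ ((u = (c, k) ∧ v = (x, k + 1)) ∨ (u = (c, k - 1) ∧ v = (c, k)) ∨
      (u = (c, k - 1) ∧ v = (x, k - 1)))) := by
  obtain ⟨u1, u2⟩ := u
  obtain ⟨v1, v2⟩ := v
  simp only [T0, Prod.mk.injEq] at h ⊢
  rcases h with ⟨h1, h2, ⟨h3, h4⟩ | ⟨h3, h4⟩⟩ | ⟨h1, h2, ⟨h3, h4⟩ | ⟨h3, h4⟩⟩ |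
    ⟨h1, h2, ⟨h3, h4⟩ | ⟨h3, h4⟩⟩
  · subst h3
    exact Or.inl ⟨v1, h1, Or.inl ⟨⟨rfl, h4⟩, rfl, h2⟩⟩
  · subst h3
    exact Or.inl ⟨_, h1, Or.inr (Or.inl ⟨⟨rfl, h4⟩, rfl, h2⟩)⟩
  · subst h3
    exact Or.inl ⟨_, h1, Or.inr (Or.inr ⟨⟨rfl, by omega⟩, rfl, by omega⟩)⟩
  · subst h3
    exact Or.inr ⟨_, h1, Or.inl ⟨⟨rfl, by omega⟩, rfl, by omega⟩⟩
  · subst h3
    exact Or.inr ⟨_, h1, Or.inr (Or.inl ⟨⟨rfl, by omega⟩, rfl, by omega⟩)⟩
  · subst h3
    exact Or.inr ⟨_, h1, Or.inr (Or.inr ⟨⟨rfl, by omega⟩, rfl, by omega⟩)⟩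

theorem tri_cases {par : V → V → Prop} {hp : ∀ x p, par x p → ¬ par p x} {a u v : V × ℤ}
    (h : (pcx par hp).tri a u v) :
    (T0 par a u v ∨ T0 par u a v ∨ T0 par u v a) ∨ (T0 par a v u ∨ T0 par v a u ∨ T0 par v u a) := by
  have : T0 par a u v ∨ T0 par a v u ∨ T0 par u a v ∨ T0 par u v a ∨ T0 par v a u ∨
    T0 par v u a := h
  tauto

theorem arccos_quarter : Real.arccos (((√2) ^ 2 + 1 ^ 2 - 1 ^ 2) / (2 * √2 * 1)) = Real.pi / 4 := by
  rw [← Real.arccos_cos (x := Real.pi / 4) (by positivity) (by linarith [Real.pi_pos])]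
  rw [Real.cos_pi_div_four]
  congr 1
  have h : (√2 : ℝ) ^ 2 = 2 := Real.sq_sqrt (by norm_num)
  have h0 : (√2 : ℝ) ≠ 0 := by positivity
  field_simp
  nlinarith

theorem arccos_quarter' : Real.arccos ((1 ^ 2 + (√2) ^ 2 - 1 ^ 2) / (2 * 1 * √2)) = Real.pi / 4 := by
  rw [← arccos_quarter]
  congr 2
  · ring
  · ring

theorem arccos_half : Real.arccos ((1 ^ 2 + 1 ^ 2 - (√2) ^ 2) / (2 * 1 * 1)) = Real.pi / 2 := by
  rw [Real.sq_sqrt (by norm_num)]
  norm_num

theorem corner_eq {par : V → V → Prop} {hp : ∀ x p, par x p → ¬ par p x} {a u v : V × ℤ}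
    (h : (pcx par hp).tri a u v) : FJ2.corner plen a u v = |hgt a u - hgt a v| := by
  have hpi := Real.pi_pos
  have hne : ∀ x p, par x p → x ≠ p := by
    rintro x p h rfl
    exact hp _ _ h h
  obtain ⟨x, k⟩ := a
  have key : ∀ u v : V × ℤ,
      (T0 par (x, k) u v ∨ T0 par u (x, k) v ∨ T0 par u v (x, k)) →
      FJ2.corner plen (x, k) u v = |hgt (x, k) u - hgt (x, k) v| ∧
      FJ2.corner plen (x, k) v u = |hgt (x, k) v - hgt (x, k) u| := by
    intro u v h
    have hk : k - 1 ≠ k + 1 := by omega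
    rcases link_cases h with ⟨p, hxp, ⟨rfl, rfl⟩ | ⟨rfl, rfl⟩ | ⟨rfl, rfl⟩⟩ |
      ⟨p, hxp, ⟨rfl, rfl⟩ | ⟨rfl, rfl⟩ | ⟨rfl, rfl⟩⟩
    all_goals
      have h1 := hne _ _ hxp
      have h2 := h1.symm
      have e1 : k ≠ k + 1 := by omega
      have e2 : k + 1 ≠ k := by omega
      have e3 : k ≠ k - 1 := by omega
      have e4 : k - 1 ≠ k := by omega
      simp only [FJ2.corner, plen_v, plen_h, plen_d h1 e1, plen_d h1 e2, plen_d h1 e3, plen_d h1 e4,
        plen_d h2 e1, plen_d h2 e2, plen_d h2 e3, plen_d h2 e4, hgt_up, hgt_down, hgt_o h1,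
        hgt_o h2, arccos_quarter, arccos_quarter', arccos_half, Int.cast_add, Int.cast_sub,
        Int.cast_one]
    · constructor
      · rw [abs_of_nonpos (by linarith)]; ring
      · rw [abs_of_nonneg (by linarith)]; ring
    · constructor
      · rw [abs_of_nonneg (by linarith)]; ring
      · rw [abs_of_nonpos (by linarith)]; ring
    · constructor
      · rw [abs_of_nonneg (by linarith)]; ring
      · rw [abs_of_nonpos (by linarith)]; ring
    · constructor
      · rw [abs_of_nonneg (by linarith)]; ring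
      · rw [abs_of_nonpos (by linarith)]; ring
    · constructor
      · rw [abs_of_nonneg (by linarith)]; ring
      · rw [abs_of_nonpos (by linarith)]; ring
    · constructor
      · rw [abs_of_nonpos (by linarith)]; ring
      · rw [abs_of_nonneg (by linarith)]; ring
  rcases tri_cases h with h | h
  · exact (key u v h).1
  · exact (key v u h).2

/-- `v` is the neighbour of `u` in the link of `(x, k)` further from the upper pole -/
def Up (par : V → V → Prop) (x : V) (k : ℤ) (u v : V × ℤ) : Prop :=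
  (∃ p, par x p ∧ ((u = (x, k + 1) ∧ v = (p, k + 1)) ∨ (u = (p, k + 1) ∧ v = (p, k)) ∨
      (u = (p, k) ∧ v = (x, k - 1)))) ∨
    (∃ c, par c x ∧ ((u = (x, k + 1) ∧ v = (c, k)) ∨ (u = (c, k) ∧ v = (c, k - 1)) ∨
      (u = (c, k - 1) ∧ v = (x, k - 1))))

theorem tri_up {par : V → V → Prop} {hp : ∀ x p, par x p → ¬ par p x} {x : V} {k : ℤ} {u v : V × ℤ}
    (h : (pcx par hp).tri (x, k) u v) : Up par x k u v ∨ Up par x k v u := by
  have key : ∀ u v : V × ℤ, (T0 par (x, k) u v ∨ T0 par u (x, k) v ∨ T0 par u v (x, k)) →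
      Up par x k u v ∨ Up par x k v u := by
    intro u v h
    rcases link_cases h with ⟨p, hxp, h | h | h⟩ | ⟨p, hxp, h | h | h⟩
    · exact Or.inl (Or.inl ⟨p, hxp, Or.inl h⟩)
    · exact Or.inr (Or.inl ⟨p, hxp, Or.inr (Or.inl h.symm)⟩)
    · exact Or.inr (Or.inl ⟨p, hxp, Or.inr (Or.inr h.symm)⟩)
    · exact Or.inr (Or.inr ⟨p, hxp, Or.inl h.symm⟩)
    · exact Or.inr (Or.inr ⟨p, hxp, Or.inr (Or.inl h.symm)⟩)
    · exact Or.inl (Or.inr ⟨p, hxp, Or.inr (Or.inr h)⟩)
  rcases tri_cases h with h | h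
  · exact key u v h
  · exact (key v u h).symm

theorem up_lt {par : V → V → Prop} (hp : ∀ x p, par x p → ¬ par p x) {x : V} {k : ℤ} {u v : V × ℤ}
    (h : Up par x k u v) : hgt (x, k) u < hgt (x, k) v := by
  have hpi := Real.pi_pos
  have hne : ∀ x p, par x p → x ≠ p := by
    rintro x p h rfl
    exact hp _ _ h h
  rcases h with ⟨p, hxp, ⟨rfl, rfl⟩ | ⟨rfl, rfl⟩ | ⟨rfl, rfl⟩⟩ |
      ⟨p, hxp, ⟨rfl, rfl⟩ | ⟨rfl, rfl⟩ | ⟨rfl, rfl⟩⟩
  all_goals
    have h1 := hne _ _ hxp
    have h2 := h1.symm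
    simp only [hgt_up, hgt_down, hgt_o h1, hgt_o h2, Int.cast_add, Int.cast_sub, Int.cast_one]
    linarith

theorem up_inj {par : V → V → Prop} (hp : ∀ x p, par x p → ¬ par p x) {x : V} {k : ℤ}
    {u v w : V × ℤ} (hu : u ≠ (x, k + 1)) (h : Up par x k u v) (h' : Up par x k u w) : v = w := by
  have hne : ∀ x p, par x p → x ≠ p := by
    rintro x p h rfl
    exact hp _ _ h h
  rcases h with ⟨p, hxp, ⟨rfl, rfl⟩ | ⟨rfl, rfl⟩ | ⟨rfl, rfl⟩⟩ |
      ⟨p, hxp, ⟨rfl, rfl⟩ | ⟨rfl, rfl⟩ | ⟨rfl, rfl⟩⟩ <;>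
  rcases h' with ⟨q, hxq, ⟨h1, rfl⟩ | ⟨h1, rfl⟩ | ⟨h1, rfl⟩⟩ |
      ⟨q, hxq, ⟨h1, rfl⟩ | ⟨h1, rfl⟩ | ⟨h1, rfl⟩⟩ <;>
  simp only [Prod.mk.injEq, ne_eq, not_true_eq_false, and_true] at h1 hu ⊢
  all_goals
    first
    | exact absurd h1.2 (by omega)
    | exact absurd h1 (by omega)
    | (obtain ⟨rfl, _⟩ := h1; first | rfl | exact absurd hxq (hp _ _ hxp))

theorem down_inj {par : V → V → Prop} (hp : ∀ x p, par x p → ¬ par p x) {x : V} {k : ℤ}
    {u v w : V × ℤ} (hu : u ≠ (x, k - 1)) (h : Up par x k v u) (h' : Up par x k w u) : v = w := by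
  have hne : ∀ x p, par x p → x ≠ p := by
    rintro x p h rfl
    exact hp _ _ h h
  rcases h with ⟨p, hxp, ⟨rfl, rfl⟩ | ⟨rfl, rfl⟩ | ⟨rfl, rfl⟩⟩ |
      ⟨p, hxp, ⟨rfl, rfl⟩ | ⟨rfl, rfl⟩ | ⟨rfl, rfl⟩⟩ <;>
  rcases h' with ⟨q, hxq, ⟨rfl, h1⟩ | ⟨rfl, h1⟩ | ⟨rfl, h1⟩⟩ |
      ⟨q, hxq, ⟨rfl, h1⟩ | ⟨rfl, h1⟩ | ⟨rfl, h1⟩⟩ <;>
  simp only [Prod.mk.injEq, ne_eq, not_true_eq_false, and_true] at h1 hu ⊢
  all_goals
    first
    | exact absurd h1.2 (by omega)
    | exact absurd h1 (by omega)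
    | (obtain ⟨rfl, _⟩ := h1; first | rfl | exact absurd hxq (hp _ _ hxp))

theorem abs_sum_le (f : ℕ → ℝ) {i j : ℕ} (h : i ≤ j) :
    |f j - f i| ≤ ∑ l ∈ Finset.Ico i j, |f l - f (l + 1)| := by
  induction j, h using Nat.le_induction with
  | base => simp
  | succ j h ih =>
    rw [Finset.sum_Ico_succ_top h]
    calc |f (j + 1) - f i| = |(f j - f i) + (f (j + 1) - f j)| := by congr 1; ring
      _ ≤ |f j - f i| + |f (j + 1) - f j| := abs_add_le _ _
      _ ≤ _ := by rw [abs_sub_comm (f (j + 1))]; linarith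

theorem two_pi_le (f : ℕ → ℝ) {n i j : ℕ} (hi : i < n) (hj : j < n) (hn : f n = f 0)
    (h0 : f i = 0) (h1 : f j = Real.pi) :
    2 * Real.pi ≤ ∑ l ∈ Finset.range n, |f l - f (l + 1)| := by
  have hpi := Real.pi_pos
  have key : ∀ i j : ℕ, i ≤ j → j < n → |f j - f i| = Real.pi →
      2 * Real.pi ≤ ∑ l ∈ Finset.range n, |f l - f (l + 1)| := by
    intro i j hij hj h
    have e1 := abs_sum_le f (Nat.zero_le i)
    have e2 := abs_sum_le f hij
    have e3 := abs_sum_le f hj.le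
    rw [h] at e2
    have e4 : |f j - f i| ≤ |f i - f 0| + |f n - f j| := by
      rw [hn]
      calc |f j - f i| = |-((f i - f 0) + (f 0 - f j))| := by congr 1; ring
        _ ≤ _ := by rw [abs_neg]; exact abs_add_le _ _
    rw [h] at e4
    have e5 : ∑ l ∈ Finset.range n, |f l - f (l + 1)| =
        (∑ l ∈ Finset.Ico 0 i, |f l - f (l + 1)|) + (∑ l ∈ Finset.Ico i j, |f l - f (l + 1)|) +
        ∑ l ∈ Finset.Ico j n, |f l - f (l + 1)| := by
      rw [Finset.sum_Ico_consecutive _ (Nat.zero_le i) hij,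
        Finset.sum_Ico_consecutive _ (Nat.zero_le j) hj.le, Finset.range_eq_Ico]
    linarith
  rcases le_total i j with h | h
  · exact key i j h hj (by rw [h0, h1, sub_zero, abs_of_pos hpi])
  · exact key j i h hi (by rw [h0, h1, zero_sub, abs_neg, abs_of_pos hpi])

theorem npc {par : V → V → Prop} (hp : ∀ x p, par x p → ¬ par p x) :
    FJ2.NPC (pcx par hp) plen where
  symm := plen_symm
  pos v w _ := by
    classical
    unfold plen
    split_ifs
    · exact one_pos
    · positivity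
  triangle a b c h := by
    have hne : ∀ x p, par x p → x ≠ p := by
      rintro x p h rfl
      exact hp _ _ h h
    have h2 : (1 : ℝ) < √2 := by
      rw [Real.lt_sqrt (by norm_num)]
      norm_num
    have h3 : √2 < (2 : ℝ) := by
      rw [Real.sqrt_lt' (by norm_num)]
      norm_num
    have key : ∀ a b c : V × ℤ, T0 par a b c → plen a b = 1 ∧ plen b c = 1 ∧ plen a c = √2 := by
      rintro ⟨a1, a2⟩ ⟨b1, b2⟩ ⟨c1, c2⟩ ⟨h1, h2, h3⟩
      simp only at h1 h2 h3
      have h4 := hne _ _ h1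
      subst h2
      refine ⟨?_, ?_, plen_d h4 (by omega)⟩
      · rcases h3 with ⟨rfl, rfl⟩ | ⟨rfl, rfl⟩
        · exact plen_v _ _ _
        · exact plen_h _ _ _
      · rcases h3 with ⟨rfl, rfl⟩ | ⟨rfl, rfl⟩
        · exact plen_h _ _ _
        · exact plen_v _ _ _
    have s1 := plen_symm a b
    have s2 := plen_symm a c
    have s3 := plen_symm b c
    rcases h with h | h | h | h | h | h <;> obtain ⟨e1, e2, e3⟩ := key _ _ _ h <;> linarith
  link a n b hn hb hinj htri := by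
    obtain ⟨x, k⟩ := a
    have hcorner : ∑ i ∈ Finset.range n, FJ2.corner plen (x, k) (b i) (b (i + 1)) =
        ∑ i ∈ Finset.range n, |hgt (x, k) (b i) - hgt (x, k) (b (i + 1))| := by
      apply Finset.sum_congr rfl
      intro i hi
      exact corner_eq (htri i (Finset.mem_range.1 hi))
    rw [hcorner]
    -- the neighbours of a vertex of the path
    have hnb : ∀ i, i < n → ∃ v w, v ≠ w ∧ (∃ j, j < n ∧ v = b j) ∧ (∃ j, j < n ∧ w = b j) ∧
        (pcx par hp).tri (x, k) (b i) v ∧ (pcx par hp).tri (x, k) (b i) w := by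
      intro i hi
      have hs : ∀ i, i < n → ∃ j, j < n ∧ b (i + 1) = b j ∧ (j = i + 1 ∨ (j = 0 ∧ i + 1 = n)) := by
        intro i hi
        rcases Nat.lt_or_ge (i + 1) n with h | h
        · exact ⟨i + 1, h, rfl, Or.inl rfl⟩
        · have : i + 1 = n := by omega
          exact ⟨0, by omega, by rw [this, hb], Or.inr ⟨rfl, this⟩⟩
      obtain ⟨j, hj, hj', hj''⟩ := hs i hi
      have hpr : ∃ m, m < n ∧ b (m + 1) = b i ∧ (i = m + 1 ∨ (i = 0 ∧ m + 1 = n)) := by
        rcases Nat.eq_zero_or_pos i with h | h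
        · subst h
          refine ⟨n - 1, by omega, ?_, Or.inr ⟨rfl, by omega⟩⟩
          rw [← hb]
          congr 1
          omega
        · refine ⟨i - 1, by omega, ?_, Or.inl (by omega)⟩
          congr 1
          omega
      obtain ⟨m, hm, hm', hm''⟩ := hpr
      refine ⟨b j, b m, ?_, ⟨j, hj, rfl⟩, ⟨m, hm, rfl⟩, ?_, ?_⟩
      · intro h
        have := hinj j m hj hm h
        omega
      · rw [← hj']
        exact htri i hi
      · rw [← hm']
        exact (pcx par hp).tri_swap' (htri m hm)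
    obtain ⟨i, hi, hmin⟩ := Finset.exists_min_image (Finset.range n) (fun i => hgt (x, k) (b i))
      ⟨0, Finset.mem_range.2 (by omega)⟩
    obtain ⟨j, hj, hmax⟩ := Finset.exists_max_image (Finset.range n) (fun i => hgt (x, k) (b i))
      ⟨0, Finset.mem_range.2 (by omega)⟩
    rw [Finset.mem_range] at hi hj
    have hi' : b i = (x, k + 1) := by
      by_contra hcon
      obtain ⟨v, w, hvw, ⟨l, hl, rfl⟩, ⟨m, hm, rfl⟩, ht, ht'⟩ := hnb i hi
      refine hvw (up_inj hp hcon ?_ ?_)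
      · rcases tri_up ht with h | h
        · exact h
        · exact absurd (up_lt hp h) (not_lt.2 (hmin l (Finset.mem_range.2 hl)))
      · rcases tri_up ht' with h | h
        · exact h
        · exact absurd (up_lt hp h) (not_lt.2 (hmin m (Finset.mem_range.2 hm)))
    have hj' : b j = (x, k - 1) := by
      by_contra hcon
      obtain ⟨v, w, hvw, ⟨l, hl, rfl⟩, ⟨m, hm, rfl⟩, ht, ht'⟩ := hnb j hj
      refine hvw (down_inj hp hcon ?_ ?_)
      · rcases tri_up ht with h | h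
        · exact absurd (up_lt hp h) (not_lt.2 (hmax l (Finset.mem_range.2 hl)))
        · exact h
      · rcases tri_up ht' with h | h
        · exact absurd (up_lt hp h) (not_lt.2 (hmax m (Finset.mem_range.2 hm)))
        · exact h
    refine two_pi_le (fun i => hgt (x, k) (b i)) hi hj ?_ ?_ ?_
    · simp only [hb]
    · simp only [hi', hgt_up]
    · simp only [hj', hgt_down]

/-! ## Simply connected -/

theorem square {par : V → V → Prop} {hp : ∀ x p, par x p → ¬ par p x} {y z : V}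
    (h : par y z ∨ par z y) (j : ℤ) (l : List (V × ℤ)) :
    FJ2.Htpy (pcx par hp) (y, j) ((y, j + 1) :: (z, j + 1) :: l) ((z, j) :: (z, j + 1) :: l) := by
  rcases h with h | h
  · have t1 : (pcx par hp).tri (y, j) (y, j + 1) (z, j + 1) :=
      Or.inl ⟨h, rfl, Or.inl ⟨rfl, rfl⟩⟩
    have t2 : (pcx par hp).tri (y, j) (z, j) (z, j + 1) :=
      Or.inl ⟨h, rfl, Or.inr ⟨rfl, rfl⟩⟩
    exact (FJ2.Htpy.tri _ _ _ l t1).trans _ _ _ _ (FJ2.Htpy.tri _ _ _ l t2).symm
  · have t1 : (pcx par hp).tri (z, j) (z, j + 1) (y, j + 1) :=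
      Or.inl ⟨h, rfl, Or.inl ⟨rfl, rfl⟩⟩
    have t2 : (pcx par hp).tri (z, j) (y, j) (y, j + 1) :=
      Or.inl ⟨h, rfl, Or.inr ⟨rfl, rfl⟩⟩
    have t1' : (pcx par hp).tri (y, j + 1) (z, j) (z, j + 1) := (pcx par hp).tri_rot _ _ _
      ((pcx par hp).tri_rot _ _ _ t1)
    have t2' : (pcx par hp).tri (y, j) (y, j + 1) (z, j) := (pcx par hp).tri_rot _ _ _ t2
    refine (FJ2.Htpy.cons _ _ _ _ (FJ2.Htpy.tri _ _ _ l t1').symm).trans _ _ _ _ ?_
    exact FJ2.Htpy.tri _ _ _ _ t2'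

theorem square' {par : V → V → Prop} {hp : ∀ x p, par x p → ¬ par p x} {y z : V}
    (h : par y z ∨ par z y) (j : ℤ) (l : List (V × ℤ)) :
    FJ2.Htpy (pcx par hp) (y, j + 1) ((y, j) :: (z, j) :: l) ((z, j + 1) :: (z, j) :: l) := by
  rcases h with h | h
  · have t1 : (pcx par hp).tri (y, j) (y, j + 1) (z, j + 1) :=
      Or.inl ⟨h, rfl, Or.inl ⟨rfl, rfl⟩⟩
    have t2 : (pcx par hp).tri (y, j) (z, j) (z, j + 1) :=
      Or.inl ⟨h, rfl, Or.inr ⟨rfl, rfl⟩⟩
    have t2' : (pcx par hp).tri (y, j) (z, j + 1) (z, j) := (pcx par hp).tri_swap' t2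
    have t1' : (pcx par hp).tri (y, j + 1) (y, j) (z, j + 1) := (pcx par hp).tri_swap _ _ _ t1
    refine (FJ2.Htpy.cons _ _ _ _ (FJ2.Htpy.tri _ _ _ l t2').symm).trans _ _ _ _ ?_
    exact FJ2.Htpy.tri _ _ _ _ t1'
  · have t1 : (pcx par hp).tri (z, j) (z, j + 1) (y, j + 1) :=
      Or.inl ⟨h, rfl, Or.inl ⟨rfl, rfl⟩⟩
    have t2 : (pcx par hp).tri (z, j) (y, j) (y, j + 1) :=
      Or.inl ⟨h, rfl, Or.inr ⟨rfl, rfl⟩⟩
    have t2' : (pcx par hp).tri (y, j + 1) (y, j) (z, j) :=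
      (pcx par hp).tri_swap _ _ _ ((pcx par hp).tri_rot _ _ _ t2)
    have t1' : (pcx par hp).tri (y, j + 1) (z, j + 1) (z, j) :=
      (pcx par hp).tri_swap' ((pcx par hp).tri_rot _ _ _ ((pcx par hp).tri_rot _ _ _ t1))
    exact (FJ2.Htpy.tri _ _ _ l t2').trans _ _ _ _ (FJ2.Htpy.tri _ _ _ l t1').symm

/-- vertical paths -/
def vp (y : V) (k : ℤ) : ℤ → List (V × ℤ)
  | Int.ofNat n => (List.range n).map fun i : ℕ => (y, k + i + 1)
  | Int.negSucc n => (List.range (n + 1)).map fun i : ℕ => (y, k - i - 1)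

theorem vp_zero (y : V) (k : ℤ) : vp y k 0 = [] := rfl

theorem vp_natCast (y : V) (k : ℤ) (n : ℕ) :
    vp y k (n : ℤ) = (List.range n).map fun i : ℕ => (y, k + i + 1) := rfl

theorem vp_neg_natCast (y : V) (k : ℤ) (n : ℕ) :
    vp y k (-(n : ℤ)) = (List.range n).map fun i : ℕ => (y, k - i - 1) := by
  cases n with
  | zero => rfl
  | succ n => rfl

theorem vp_succ_nonneg (y : V) (k : ℤ) (n : ℕ) :
    vp y k ((n : ℤ) + 1) = vp y k n ++ [(y, k + n + 1)] := by
  have : ((n : ℤ) + 1) = ((n + 1 : ℕ) : ℤ) := by push_cast; rfl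
  rw [this, vp_natCast, vp_natCast, List.range_succ, List.map_append]
  rfl

theorem vp_pred_nonpos (y : V) (k : ℤ) (n : ℕ) :
    vp y k (-(n : ℤ) - 1) = vp y k (-n) ++ [(y, k - n - 1)] := by
  have : (-(n : ℤ) - 1) = -((n + 1 : ℕ) : ℤ) := by push_cast; ring
  rw [this, vp_neg_natCast, vp_neg_natCast, List.range_succ, List.map_append]
  rfl

theorem vp_endp (y : V) (k d : ℤ) : FJ2.endp (y, k) (vp y k d) = (y, k + d) := by
  induction d using Int.induction_on with
  | zero => simp [vp_zero]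
  | succ n ih => 
    rw [vp_succ_nonneg, FJ2.endp_append]
    simp [add_assoc]
  | pred n ih =>
    rw [vp_pred_nonpos, FJ2.endp_append]
    simp only [FJ2.endp_cons, FJ2.endp_nil, Prod.mk.injEq, true_and]
    ring

theorem vp_isPath {par : V → V → Prop} {hp : ∀ x p, par x p → ¬ par p x} (y : V) (k d : ℤ) :
    FJ2.IsPath (pcx par hp) (y, k) (vp y k d) := by
  induction d using Int.induction_on with
  | zero => exact trivial
  | succ n ih =>
    rw [vp_succ_nonneg, FJ2.isPath_append]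
    refine ⟨ih, ?_, trivial⟩
    rw [vp_endp]
    exact Or.inl (Or.inl ⟨rfl, rfl⟩)
  | pred n ih =>
    rw [vp_pred_nonpos, FJ2.isPath_append]
    refine ⟨ih, ?_, trivial⟩
    rw [vp_endp]
    exact Or.inr (Or.inl ⟨rfl, by change k + -(n : ℤ) = k - n - 1 + 1; ring⟩)

theorem vp_up {par : V → V → Prop} {hp : ∀ x p, par x p → ¬ par p x} (y : V) (k d : ℤ) :
    FJ2.Htpy (pcx par hp) (y, k) (vp y k d ++ [(y, k + d + 1)]) (vp y k (d + 1)) := by
  rcases Int.eq_nat_or_neg d with ⟨n, rfl | rfl⟩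
  · rw [vp_succ_nonneg]
    exact FJ2.Htpy.refl _ _
  · cases n with
    | zero =>
      exact FJ2.Htpy.refl _ _
    | succ n =>
      have e1 : (-((n + 1 : ℕ) : ℤ)) = -(n : ℤ) - 1 := by push_cast; ring
      have e2 : -(n : ℤ) - 1 + 1 = -n := by ring
      rw [e1, vp_pred_nonpos, e2, List.append_assoc]
      have e3 : vp y k (-(n : ℤ)) = vp y k (-(n : ℤ)) ++ [] := by simp
      conv => arg 4; rw [e3]
      apply FJ2.Htpy.append_left
      rw [vp_endp]
      have e4 : k + (-(n : ℤ) - 1) + 1 = k + -(n : ℤ) := by ring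
      rw [e4]
      exact FJ2.Htpy.spur _ _ [] (Or.inr (Or.inl ⟨rfl, by change k + -(n : ℤ) = k - n - 1 + 1; ring⟩))

theorem vp_down {par : V → V → Prop} {hp : ∀ x p, par x p → ¬ par p x} (y : V) (k d : ℤ) :
    FJ2.Htpy (pcx par hp) (y, k) (vp y k (d + 1) ++ [(y, k + d)]) (vp y k d) := by
  refine ((vp_up y k d).append_right [(y, k + d)]).symm.trans _ _ _ _ ?_
  rw [List.append_assoc]
  have e3 : vp y k d = vp y k d ++ [] := by simp
  conv => arg 4; rw [e3]
  apply FJ2.Htpy.append_left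
  rw [vp_endp]
  exact FJ2.Htpy.spur _ _ [] (Or.inl (Or.inl ⟨rfl, rfl⟩))

theorem ladder {par : V → V → Prop} {hp : ∀ x p, par x p → ¬ par p x} {y z : V}
    (h : par y z ∨ par z y) (k d : ℤ) :
    FJ2.Htpy (pcx par hp) (y, k) (vp y k d ++ [(z, k + d)]) ((z, k) :: vp z k d) := by
  induction d using Int.induction_on with
  | zero =>
    simp only [vp_zero, List.nil_append, add_zero]
    exact FJ2.Htpy.refl _ _
  | succ n ih =>
    have h1 := ((vp_up (par := par) (hp := hp) y k n).append_right [(z, k + ((n : ℤ) + 1))]).symm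
    refine h1.trans _ _ _ _ ?_
    rw [List.append_assoc]
    have h2 := square (hp := hp) h (k + n) []
    have h3 := FJ2.Htpy.append_left (X := pcx par hp) (a := (y, k)) (vp y k n)
      (by rw [vp_endp]; exact h2)
    have e : k + ((n : ℤ) + 1) = k + n + 1 := by ring
    rw [e]
    refine h3.trans _ _ _ _ ?_
    have h4 := ih.append_right [(z, k + (n : ℤ) + 1)]
    rw [List.append_assoc] at h4
    refine h4.trans _ _ _ _ ?_
    exact FJ2.Htpy.cons _ _ _ _ (vp_up z k n)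
  | pred n ih =>
    have e0 : -(n : ℤ) = (-(n : ℤ) - 1) + 1 := by ring
    have h1 := ((vp_down (par := par) (hp := hp) y k (-(n : ℤ) - 1)).append_right
      [(z, k + (-(n : ℤ) - 1))]).symm
    refine h1.trans _ _ _ _ ?_
    rw [List.append_assoc]
    have h2 := square' (hp := hp) h (k + (-(n : ℤ) - 1)) []
    have h3 := FJ2.Htpy.append_left (X := pcx par hp) (a := (y, k)) (vp y k (-(n : ℤ) - 1 + 1))
      (by rw [vp_endp, ← add_assoc]; exact h2)
    refine h3.trans _ _ _ _ ?_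
    have h4 := ih.append_right [(z, k + (-(n : ℤ) - 1))]
    rw [List.append_assoc] at h4
    have e : k + (-(n : ℤ) - 1) + 1 = k + -(n : ℤ) := by ring
    rw [e, ← e0]
    refine h4.trans _ _ _ _ ?_
    have h5 := vp_down (par := par) (hp := hp) z k (-(n : ℤ) - 1)
    rw [← e0] at h5
    exact FJ2.Htpy.cons _ _ _ _ h5

/-- horizontal paths -/
def hw {G : SimpleGraph V} (k : ℤ) : {x y : V} → G.Walk x y → List (V × ℤ)
  | _, _, SimpleGraph.Walk.nil => []
  | _, _, SimpleGraph.Walk.cons (v := v) _ p => (v, k) :: hw k p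

theorem hw_append {G : SimpleGraph V} (k : ℤ) {x y z : V} (p : G.Walk x y) (q : G.Walk y z) :
    hw k (p.append q) = hw k p ++ hw k q := by
  induction p with
  | nil => rfl
  | cons h p ih => simp [hw, ih]

theorem hw_endp {G : SimpleGraph V} (k : ℤ) {x y : V} (p : G.Walk x y) :
    FJ2.endp (x, k) (hw k p) = (y, k) := by
  induction p with
  | nil => rfl
  | cons h p ih => simpa [hw] using ih

theorem hw_isPath {par : V → V → Prop} {hp : ∀ x p, par x p → ¬ par p x} (k : ℤ) {x y : V}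
    (p : (SimpleGraph.fromRel par).Walk x y) : FJ2.IsPath (pcx par hp) (x, k) (hw k p) := by
  induction p with
  | nil => trivial
  | cons h p ih =>
    refine ⟨?_, ih⟩
    rcases ((SimpleGraph.fromRel_adj _ _ _).1 h).2 with h | h
    · exact Or.inl (Or.inr ⟨h, Or.inl rfl⟩)
    · exact Or.inr (Or.inr ⟨h, Or.inl rfl⟩)

section

variable {par : V → V → Prop} {hp : ∀ x p, par x p → ¬ par p x}
  (hT : (SimpleGraph.fromRel par).IsTree)

/-- the path from `x` to `y` -/
noncomputable def geo (x y : V) : (SimpleGraph.fromRel par).Walk x y :=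
  (hT.existsUnique_path x y).choose

theorem geo_isPath (x y : V) : (geo hT x y).IsPath := (hT.existsUnique_path x y).choose_spec.1

theorem geo_unique {x y : V} {p : (SimpleGraph.fromRel par).Walk x y} (h : p.IsPath) :
    p = geo hT x y := (hT.existsUnique_path x y).choose_spec.2 p h

theorem geo_adj {x y z : V} (h : (SimpleGraph.fromRel par).Adj y z) (k : ℤ) :
    hw k (geo hT x z) = hw k (geo hT x y) ++ [(z, k)] ∨
    hw k (geo hT x y) = hw k (geo hT x z) ++ [(y, k)] := by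
  classical
  by_cases hz : z ∈ (geo hT x y).support
  · right
    have h1 : (geo hT x y).takeUntil z hz = geo hT x z :=
      geo_unique hT ((geo_isPath hT x y).takeUntil hz)
    have h2 : (geo hT x y).dropUntil z hz = SimpleGraph.Walk.cons h.symm SimpleGraph.Walk.nil := by
      rw [geo_unique hT ((geo_isPath hT x y).dropUntil hz)]
      symm
      apply geo_unique hT
      rw [SimpleGraph.Walk.cons_isPath_iff]
      simp [h.ne']
    have h3 := (geo hT x y).take_spec hz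
    rw [h1, h2] at h3
    conv_lhs => rw [← h3]
    rw [hw_append]
    rfl
  · left
    have h1 : ((geo hT x y).concat h).IsPath := (geo_isPath hT x y).concat hz h
    rw [← geo_unique hT h1, SimpleGraph.Walk.concat_eq_append, hw_append]
    rfl

/-- the normal form of the paths from `a` to `w` -/
noncomputable def nf (a w : V × ℤ) : List (V × ℤ) :=
  hw a.2 (geo hT a.1 w.1) ++ vp w.1 a.2 (w.2 - a.2)

theorem nf_endp (a w : V × ℤ) : FJ2.endp a (nf hT a w) = w := by
  unfold nf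
  rw [FJ2.endp_append]
  have : FJ2.endp a (hw a.2 (geo hT a.1 w.1)) = (w.1, a.2) := hw_endp a.2 _
  rw [this, vp_endp]
  ext
  · rfl
  · simp

theorem nf_isPath (a w : V × ℤ) : FJ2.IsPath (pcx par hp) a (nf hT a w) := by
  unfold nf
  rw [FJ2.isPath_append]
  refine ⟨hw_isPath a.2 _, ?_⟩
  have : FJ2.endp a (hw a.2 (geo hT a.1 w.1)) = (w.1, a.2) := hw_endp a.2 _
  rw [this]
  exact vp_isPath _ _ _

theorem nf_vert (a w w' : V × ℤ) (h1 : w.1 = w'.1) (h2 : w'.2 = w.2 + 1) :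
    FJ2.Htpy (pcx par hp) a (nf hT a w ++ [w']) (nf hT a w') ∧
    FJ2.Htpy (pcx par hp) a (nf hT a w' ++ [w]) (nf hT a w) := by
  obtain ⟨x, k⟩ := a
  obtain ⟨y, j⟩ := w
  obtain ⟨z, j'⟩ := w'
  simp only at h1 h2
  subst h1 h2
  unfold nf
  simp only
  rw [List.append_assoc, List.append_assoc]
  constructor
  · apply FJ2.Htpy.append_left
    rw [hw_endp]
    have h := vp_up (par := par) (hp := hp) y k (j - k)
    have e1 : k + (j - k) + 1 = j + 1 := by ring
    have e2 : j - k + 1 = j + 1 - k := by ring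
    rw [e1, e2] at h
    exact h
  · apply FJ2.Htpy.append_left
    rw [hw_endp]
    have h := vp_down (par := par) (hp := hp) y k (j - k)
    have e1 : k + (j - k) = j := by ring
    have e2 : j - k + 1 = j + 1 - k := by ring
    rw [e1, e2] at h
    exact h

theorem nf_hor (a : V × ℤ) (y z : V) (j : ℤ) (h : par y z ∨ par z y) :
    FJ2.Htpy (pcx par hp) a (nf hT a (y, j) ++ [(z, j)]) (nf hT a (z, j)) := by
  obtain ⟨x, k⟩ := a
  have hadj : (SimpleGraph.fromRel par).Adj y z := by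
    rw [SimpleGraph.fromRel_adj]
    refine ⟨?_, h⟩
    rintro rfl
    rcases h with h | h <;> exact hp _ _ h h
  unfold nf
  simp only
  rw [List.append_assoc]
  have h1 := ladder (hp := hp) h k (j - k)
  have e1 : k + (j - k) = j := by ring
  rw [e1] at h1
  have h2 := FJ2.Htpy.append_left (X := pcx par hp) (a := (x, k)) (hw k (geo hT x y))
      (by rw [hw_endp]; exact h1)
  refine h2.trans _ _ _ _ ?_
  rcases geo_adj hT (x := x) hadj k with h3 | h3
  · rw [h3, List.append_assoc]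
    exact FJ2.Htpy.refl _ _
  · rw [h3, List.append_assoc]
    apply FJ2.Htpy.append_left
    rw [hw_endp]
    refine FJ2.Htpy.spur _ _ _ ?_
    rcases h with h | h
    · exact Or.inr (Or.inr ⟨h, Or.inl rfl⟩)
    · exact Or.inl (Or.inr ⟨h, Or.inl rfl⟩)

theorem nf_diag (a : V × ℤ) (y z : V) (j : ℤ) (h : par y z) :
    FJ2.Htpy (pcx par hp) a (nf hT a (y, j) ++ [(z, j + 1)]) (nf hT a (z, j + 1)) ∧
    FJ2.Htpy (pcx par hp) a (nf hT a (z, j + 1) ++ [(y, j)]) (nf hT a (y, j)) := by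
  have t : (pcx par hp).tri (y, j) (z, j) (z, j + 1) := Or.inl ⟨h, rfl, Or.inr ⟨rfl, rfl⟩⟩
  have t' : (pcx par hp).tri (z, j + 1) (z, j) (y, j) :=
    (pcx par hp).tri_swap _ _ _ ((pcx par hp).tri_rot _ _ _ t)
  constructor
  · have h1 := FJ2.Htpy.append_left (X := pcx par hp) (a := a) (nf hT a (y, j))
      (by rw [nf_endp]; exact (FJ2.Htpy.tri (X := pcx par hp) _ _ _ [] t).symm)
    refine h1.trans _ _ _ _ ?_
    have h2 := (nf_hor (hp := hp) hT a y z j (Or.inl h)).append_right [(z, j + 1)]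
    rw [List.append_assoc] at h2
    refine h2.trans _ _ _ _ ?_
    exact (nf_vert hT a (z, j) (z, j + 1) rfl rfl).1
  · have h1 := FJ2.Htpy.append_left (X := pcx par hp) (a := a) (nf hT a (z, j + 1))
      (by rw [nf_endp]; exact (FJ2.Htpy.tri (X := pcx par hp) _ _ _ [] t').symm)
    refine h1.trans _ _ _ _ ?_
    have h2 := ((nf_vert (hp := hp) hT a (z, j) (z, j + 1) rfl rfl).2).append_right [(y, j)]
    rw [List.append_assoc] at h2
    refine h2.trans _ _ _ _ ?_
    exact nf_hor hT a z y j (Or.inr h)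

theorem nf_step (a w w' : V × ℤ) (h : (pcx par hp).edge w w') :
    FJ2.Htpy (pcx par hp) a (nf hT a w ++ [w']) (nf hT a w') := by
  obtain ⟨y, j⟩ := w
  obtain ⟨z, j'⟩ := w'
  rcases h with (⟨h1, h2⟩ | ⟨h1, h2 | h2⟩) | (⟨h1, h2⟩ | ⟨h1, h2 | h2⟩)
  · exact (nf_vert hT a _ _ h1 h2).1
  · simp only at h1 h2
    subst h2
    exact nf_hor hT a y z j' (Or.inl h1)
  · simp only at h1 h2
    subst h2
    exact (nf_diag hT a y z j h1).1
  · exact (nf_vert hT a _ _ h1 h2).2
  · simp only at h1 h2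
    subst h2
    exact nf_hor hT a y z j (Or.inr h1)
  · simp only at h1 h2
    subst h2
    exact (nf_diag hT a z y j' h1).2

theorem htpy_nf (a : V × ℤ) (l : List (V × ℤ)) (hl : FJ2.IsPath (pcx par hp) a l) :
    FJ2.Htpy (pcx par hp) a l (nf hT a (FJ2.endp a l)) := by
  induction l using List.reverseRecOn with
  | nil =>
    have : nf hT a a = [] := by
      unfold nf
      rw [← geo_unique hT (SimpleGraph.Walk.IsPath.nil (u := a.1)), sub_self, vp_zero]
      rfl
    rw [FJ2.endp_nil, this]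
    exact FJ2.Htpy.refl _ _
  | append_singleton l w ih =>
    rw [FJ2.isPath_append] at hl
    have h1 := (ih hl.1).append_right [w]
    refine h1.trans _ _ _ _ ?_
    rw [FJ2.endp_append]
    exact nf_step hT a _ _ hl.2.1

theorem simplyConnected (hT : (SimpleGraph.fromRel par).IsTree) :
    FJ2.SimplyConnected (pcx par hp) := by
  refine ⟨?_, ?_, ?_⟩
  · obtain ⟨x⟩ := hT.1.nonempty
    exact ⟨(x, 0)⟩
  · intro a b
    exact ⟨nf hT a b, nf_isPath hT a b, nf_endp hT a b⟩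
  · intro a l hl ha
    have h1 := htpy_nf hT a l hl
    rw [ha] at h1
    have h2 := htpy_nf (hp := hp) hT a [] trivial
    rw [FJ2.endp_nil] at h2
    exact h1.trans _ _ _ _ h2.symm

end

theorem tree_mem {P : ∀ (G : Type) [Group G], Prop} (hP : Closed P) (N : Type) [Group N]
    (φ : N →* Multiplicative ℤ) (h : ActsOnTree N φ) : P N := by
  obtain ⟨V, _, par, hinv, hp, hT, hst⟩ := h
  let act : MulAction N (V × ℤ) :=
    { smul := fun n w => (n • w.1, w.2 + Multiplicative.toAdd (φ n))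
      one_smul := by
        intro w
        change ((1 : N) • w.1, w.2 + Multiplicative.toAdd (φ 1)) = w
        simp
      mul_smul := by
        intro m n w
        change ((m * n) • w.1, w.2 + Multiplicative.toAdd (φ (m * n))) =
          (m • (n • w.1), w.2 + Multiplicative.toAdd (φ n) + Multiplicative.toAdd (φ m))
        rw [mul_smul, map_mul, toAdd_mul]
        congr 1
        ring }
  have hsm : ∀ (n : N) (w : V × ℤ), n • w = (n • w.1, w.2 + Multiplicative.toAdd (φ n)) :=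
    fun _ _ => rfl
  have hD : ∀ (n : N) (v w : V × ℤ), D par v w → D par (n • v) (n • w) := by
    rintro n v w (⟨h1, h2⟩ | ⟨h1, h2⟩)
    · left
      rw [hsm, hsm]
      exact ⟨by simp only [h1], by simp only [h2]; ring⟩
    · right
      rw [hsm, hsm]
      refine ⟨hinv n _ _ h1, ?_⟩
      simp only
      omega
  have hT0 : ∀ (n : N) (a b c : V × ℤ), T0 par a b c → T0 par (n • a) (n • b) (n • c) := by
    rintro n a b c ⟨h1, h2, h3⟩
    rw [hsm, hsm, hsm]
    refine ⟨hinv n _ _ h1, by simp only; omega, ?_⟩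
    rcases h3 with ⟨h3, h4⟩ | ⟨h3, h4⟩
    · left
      exact ⟨by simp only [h3], by simp only; omega⟩
    · right
      exact ⟨by simp only [h3], by simp only; omega⟩
  refine FJ2.closed_proper (P := P) ⟨hP.cat, hP.colim⟩ (pcx par hp) plen (simplyConnected hT)
    (npc hp) ?_
  refine ⟨?_, ?_, ?_, ?_⟩
  · rintro n a b (h | h)
    · exact Or.inl (hD n _ _ h)
    · exact Or.inr (hD n _ _ h)
  · rintro n a b c (h | h | h | h | h | h)
    · exact Or.inl (hT0 n _ _ _ h)
    · exact Or.inr (Or.inl (hT0 n _ _ _ h))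
    · exact Or.inr (Or.inr (Or.inl (hT0 n _ _ _ h)))
    · exact Or.inr (Or.inr (Or.inr (Or.inl (hT0 n _ _ _ h))))
    · exact Or.inr (Or.inr (Or.inr (Or.inr (Or.inl (hT0 n _ _ _ h)))))
    · exact Or.inr (Or.inr (Or.inr (Or.inr (Or.inr (hT0 n _ _ _ h)))))
  · intro n a b _
    classical
    unfold plen
    rw [hsm, hsm]
    have : (n • a.1 = n • b.1 ∨ a.2 + Multiplicative.toAdd (φ n) = b.2 + Multiplicative.toAdd (φ n))
        ↔ (a.1 = b.1 ∨ a.2 = b.2) := by
      rw [add_left_inj]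
      constructor
      · rintro (h | h)
        · exact Or.inl (MulAction.injective n h)
        · exact Or.inr h
      · rintro (h | h)
        · exact Or.inl (by rw [h])
        · exact Or.inr h
    simp only [this]
  · intro v
    refine Set.Finite.subset (Set.finite_singleton (1 : N)) ?_
    intro n hn
    have h1 : n • v = v := hn
    rw [hsm] at h1
    have h2 := congrArg Prod.fst h1
    have h3 := congrArg Prod.snd h1
    simp only at h2 h3
    rw [Set.mem_singleton_iff]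
    refine hst v.1 n h2 ?_
    have : Multiplicative.toAdd (φ n) = 0 := by omega
    exact this

end Pool.Agent.helper91.LT
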